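import Pool.Agent.Helper98.DA.CovTr
import Pool.Agent.Helper8.DC.Tr

/-!
Coefficients with curvature: the vector density is a vector density.
-/

set_option autoImplicit false

open scoped Manifold ContDiff

namespace Pool.Agent.Helper98.DA

open Pool.Agent.Helper8.DC Pool.Agent.Helper8.DA

variable {X : Type} [TopologicalSpace X] [ChartedSpace E4 X] [IsManifold (𝓡 4) ∞ X]

theorem vecL_tr (P : Bundle X) {N : ℕ} (L : Coef P N) (φ : Sect P L) (i j : P.ι) (y : E4)
    (hy : y ∈ P.ov i j) (n : Fin 4) :
    ∑ l, jac P i j y n l * vecL (P.A j) (L.B j) (φ.s j) y l =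
      (jac P i j y).det * vecL (P.A i) (L.B i) (φ.s i) (P.tr i j y) n := by
  set T := jac P i j y with hT
  set g := P.g i j y with hg
  have hgm : g ∈ Matrix.specialOrthogonalGroup (Fin 3) ℝ := P.g_mem i j y hy
  have hh : ∀ s t : Fin N, ∑ r, L.h i j y r s * L.h i j y r t = if s = t then 1 else 0 := by
    intro s t
    have h1 := L.h_mem i j y hy
    rw [Matrix.mem_orthogonalGroup_iff'] at h1
    have := congrFun (congrFun h1 s) t
    simpa [Matrix.mul_apply, Matrix.one_apply, Matrix.star_eq_conjTranspose] using this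
  have e1 : ∀ r, T.det * trip (φ.s i (P.tr i j y) r) (Pi.single n 1)
      (covL (P.A i) (L.B i) (φ.s i) (P.tr i j y) r) (curv (P.A i) (P.tr i j y)) =
      ∑ s, ∑ t, L.h i j y r s * L.h i j y r t *
        trip (φ.s j y s) (fun m => T n m) (covL (P.A j) (L.B j) (φ.s j) y t)
          (curv (P.A j) y) := by
    intro r
    rw [← trip_pull T _ _ _ _ (skew_curv _ _)]
    have a1 : (fun m => ∑ n', T n' m * (Pi.single n 1 : Fin 4 → ℝ) n') = fun m => T n m := by
      funext m; simp [Pi.single_apply]
    have a2 : (fun m => ∑ n', T n' m • covL (P.A i) (L.B i) (φ.s i) (P.tr i j y) r n') =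
        fun m => ∑ t, L.h i j y r t • g.mulVec (covL (P.A j) (L.B j) (φ.s j) y t m) := by
      funext m; exact covL_tr P L φ i j y hy r m
    have a3 : (fun l m => ∑ n', ∑ p, (T n' l * T p m) • curv (P.A i) (P.tr i j y) n' p) =
        fun l m => g.mulVec (curv (P.A j) y l m) := by
      funext l m; exact curv_tr P i j y hy l m
    rw [a1, a2, a3, φ.compat i j y hy r, trip_sum_phi]
    refine Finset.sum_congr rfl fun s _ => ?_
    rw [trip_sum_cov, Finset.mul_sum]
    refine Finset.sum_congr rfl fun t _ => ?_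
    rw [trip_rot g hgm, mul_assoc]
  have e2 : T.det * vecL (P.A i) (L.B i) (φ.s i) (P.tr i j y) n =
      ∑ s, trip (φ.s j y s) (fun m => T n m) (covL (P.A j) (L.B j) (φ.s j) y s)
          (curv (P.A j) y) := by
    unfold vecL
    rw [Finset.mul_sum]
    simp only [e1]
    rw [Finset.sum_comm]
    refine Finset.sum_congr rfl fun s _ => ?_
    rw [Finset.sum_comm]
    simp only [← Finset.sum_mul, hh]
    simp
  rw [e2]
  have e3 : ∀ s, trip (φ.s j y s) (fun m => T n m) (covL (P.A j) (L.B j) (φ.s j) y s)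
      (curv (P.A j) y) = ∑ l, T n l * trip (φ.s j y s) (Pi.single l 1)
        (covL (P.A j) (L.B j) (φ.s j) y s) (curv (P.A j) y) := fun s => trip_lin_form _ _ _ _
  simp only [e3, vecL, Finset.mul_sum]
  rw [Finset.sum_comm]

end Pool.Agent.Helper98.DA
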