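import Pool.Agent.Helper8.DA.Defs
import Pool.Agent.Helper8.DC.PJ

/-!
Coefficients with curvature: the covariant derivative is covariant.
-/

set_option autoImplicit false

open scoped Manifold ContDiff

namespace Pool.Agent.Helper98.DA

open Pool.Agent.Helper8.DC Pool.Agent.Helper8.DA

variable {X : Type} [TopologicalSpace X] [ChartedSpace E4 X] [IsManifold (𝓡 4) ∞ X]

/-- the derivative of a rotated section -/
theorem pd_mulVec {g : E4 → Matrix (Fin 3) (Fin 3) ℝ} {f : E4 → R3} {y : E4}
    (hg : ∀ a b, DifferentiableAt ℝ (fun z => g z a b) y) (hf : DifferentiableAt ℝ f y)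
    (m : Fin 4) :
    DifferentiableAt ℝ (fun z => (g z).mulVec (f z)) y ∧
    pd m (fun z => (g z).mulVec (f z)) y
      = pd m (fun z => (g z).mulVec (f y)) y + (g y).mulVec (pd m f y) := by
  have hfa : ∀ a, DifferentiableAt ℝ (fun z => f z a) y := differentiableAt_pi.1 hf
  have d1 : DifferentiableAt ℝ (fun z => (g z).mulVec (f z)) y := by
    refine differentiableAt_pi.2 fun a => ?_
    simp only [Matrix.mulVec, dotProduct]
    exact DifferentiableAt.fun_sum fun b _ => (hg a b).fun_mul (hfa b)
  have d2 : DifferentiableAt ℝ (fun z => (g z).mulVec (f y)) y := by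
    refine differentiableAt_pi.2 fun a => ?_
    simp only [Matrix.mulVec, dotProduct]
    exact DifferentiableAt.fun_sum fun b _ => (hg a b).fun_mul (differentiableAt_const _)
  refine ⟨d1, ?_⟩
  funext a
  rw [ph_pd_comp d1, Pi.add_apply, ph_pd_comp d2]
  simp only [Matrix.mulVec, dotProduct]
  rw [pi_pd_sum _ (fun b _ => (hg a b).fun_mul (hfa b)),
    pi_pd_sum _ (fun b _ => (hg a b).fun_mul (differentiableAt_const _)),
    ← Finset.sum_add_distrib]
  refine Finset.sum_congr rfl fun b _ => ?_
  rw [ph_pd_mul (hg a b) (hfa b), ph_pd_mul (hg a b) (differentiableAt_const _), ph_pd_comp hf]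
  simp [pd]

theorem covL_tr (P : Bundle X) {N : ℕ} (L : Coef P N) (φ : Sect P L) (i j : P.ι) (y : E4)
    (hy : y ∈ P.ov i j) (r : Fin N) (m : Fin 4) :
    ∑ n, jac P i j y n m • covL (P.A i) (L.B i) (φ.s i) (P.tr i j y) r n =
      ∑ t, L.h i j y r t • (P.g i j y).mulVec (covL (P.A j) (L.B j) (φ.s j) y t m) := by
  have hopen := ov_open P i j
  have hov := hopen.mem_nhds hy
  have hτ : DifferentiableAt ℝ (P.tr i j) y :=
    ((tr_smooth P i j).contDiffAt hov).differentiableAt (by simp)
  have hψ : DifferentiableAt ℝ (fun z => φ.s i z r) (P.tr i j y) := by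
    have h1 : DifferentiableAt ℝ (φ.s i) (P.tr i j y) :=
      ((φ.smooth i).contDiffAt ((P.c i).open_target.mem_nhds (tr_mem P i j y hy))).differentiableAt
        (by simp)
    exact (differentiableAt_pi.1 h1) r
  have hφ : ∀ t, DifferentiableAt ℝ (fun z => φ.s j z t) y := by
    have h1 : DifferentiableAt ℝ (φ.s j) y :=
      ((φ.smooth j).contDiffAt ((P.c j).open_target.mem_nhds hy.1)).differentiableAt (by simp)
    exact fun t => (differentiableAt_pi.1 h1) t
  have hg : ∀ a b, DifferentiableAt ℝ (fun z => P.g i j z a b) y := fun a b =>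
    ((P.g_smooth i j a b).contDiffAt hov).differentiableAt (by simp)
  have hh : ∀ t, DifferentiableAt ℝ (fun z => L.h i j z r t) y := fun t =>
    ((L.h_smooth i j r t).contDiffAt hov).differentiableAt (by simp)
  set τ := P.tr i j with hτdef
  set w : Fin N → R3 := fun t => (P.g i j y).mulVec (φ.s j y t) with hw
  set CA : R3 := ∑ n, (pd m τ y) n • P.A i (τ y) n with hCA
  set CB : Matrix (Fin N) (Fin N) ℝ := ∑ n, (pd m τ y) n • L.B i (τ y) n with hCB
  have hval : ∀ t, φ.s i (τ y) t = ∑ u, L.h i j y t u • w u := fun t => by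
    rw [hτdef, φ.compat i j y hy t]
  -- the left side
  have hL : ∑ n, jac P i j y n m • covL (P.A i) (L.B i) (φ.s i) (τ y) r n
      = pd m (fun z => φ.s i (τ z) r) y + crossProduct CA (φ.s i (τ y) r) +
        ∑ u, (CB * L.h i j y) r u • w u := by
    have e1 : pd m (fun z => φ.s i (τ z) r) y + crossProduct CA (φ.s i (τ y) r) =
        ∑ n, jac P i j y n m • cov (P.A i) (fun z => φ.s i z r) (τ y) n := by
      rw [pi_chain (ψ := fun z => φ.s i z r) hτ hψ m]
      rw [hCA, map_sum, LinearMap.sum_apply, ← Finset.sum_add_distrib]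
      refine Finset.sum_congr rfl fun n _ => ?_
      unfold cov jac
      rw [smul_add, map_smul, LinearMap.smul_apply]
    have e2 : ∑ u, (CB * L.h i j y) r u • w u =
        ∑ n, jac P i j y n m • ∑ t, L.B i (τ y) n r t • φ.s i (τ y) t := by
      have e3 : ∀ u, (CB * L.h i j y) r u • w u =
          ∑ n, ∑ t, (jac P i j y n m * L.B i (τ y) n r t * L.h i j y t u) • w u := by
        intro u
        rw [Matrix.mul_apply, Finset.sum_smul, Finset.sum_comm]
        refine Finset.sum_congr rfl fun t _ => ?_
        rw [← Finset.sum_smul]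
        congr 1
        rw [hCB, Matrix.sum_apply, Finset.sum_mul]
        refine Finset.sum_congr rfl fun n _ => ?_
        rw [Matrix.smul_apply, smul_eq_mul]
        rfl
      rw [Finset.sum_congr rfl fun u _ => e3 u, Finset.sum_comm]
      refine Finset.sum_congr rfl fun n _ => ?_
      rw [Finset.sum_comm, Finset.smul_sum]
      refine Finset.sum_congr rfl fun t _ => ?_
      rw [hval t, Finset.smul_sum, Finset.smul_sum]
      refine Finset.sum_congr rfl fun u _ => ?_
      rw [smul_smul, smul_smul, mul_assoc]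
    rw [e1, e2, ← Finset.sum_add_distrib]
    refine Finset.sum_congr rfl fun n _ => ?_
    rw [covL, smul_add]
  rw [hL]
  have hev : (fun z => φ.s i (τ z) r) =ᶠ[nhds y]
      fun z => ∑ t, L.h i j z r t • (P.g i j z).mulVec (φ.s j z t) := by
    filter_upwards [hov] with z hz
    rw [hτdef, φ.compat i j z hz r]
  have hD : pd m (fun z => φ.s i (τ z) r) y
      = ∑ t, (pd m (fun z => L.h i j z r t) y • w t +
        L.h i j y r t • pd m (fun z => (P.g i j z).mulVec (φ.s j z t)) y) := by
    rw [pj_congr m hev, pj_sum]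
    · refine Finset.sum_congr rfl fun t _ => ?_
      rw [pj_smul m (hh t) (pd_mulVec hg (hφ t) m).1]
    · intro t _
      exact (hh t).fun_smul (pd_mulVec hg (hφ t) m).1
  rw [hD, hval r, map_sum, ← Finset.sum_add_distrib, ← Finset.sum_add_distrib]
  -- the right side
  have hR : ∑ t, L.h i j y r t • (P.g i j y).mulVec (covL (P.A j) (L.B j) (φ.s j) y t m) =
      ∑ t, (L.h i j y r t • (P.g i j y).mulVec (cov (P.A j) (fun z => φ.s j z t) y m) +
        (L.h i j y * L.B j y m) r t • w t) := by
    rw [Finset.sum_add_distrib]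
    have e4 : ∑ t, (L.h i j y * L.B j y m) r t • w t =
        ∑ t, L.h i j y r t • (P.g i j y).mulVec (∑ u, L.B j y m t u • φ.s j y u) := by
      have e5 : ∀ u, (L.h i j y * L.B j y m) r u • w u =
          ∑ t, (L.h i j y r t * L.B j y m t u) • w u := by
        intro u
        rw [Matrix.mul_apply, Finset.sum_smul]
      rw [Finset.sum_congr rfl fun u _ => e5 u, Finset.sum_comm]
      refine Finset.sum_congr rfl fun t _ => ?_
      rw [Matrix.mulVec_sum, Finset.smul_sum]
      refine Finset.sum_congr rfl fun u _ => ?_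
      rw [Matrix.mulVec_smul, smul_smul]
    rw [e4, ← Finset.sum_add_distrib]
    refine Finset.sum_congr rfl fun t _ => ?_
    rw [covL, Matrix.mulVec_add, smul_add]
  rw [hR]
  refine Finset.sum_congr rfl fun t _ => ?_
  rw [(pd_mulVec hg (hφ t) m).2, ← L.compat i j y hy m r t]
  have hc := P.compat i j y hy m (φ.s j y t)
  have hA' : (∑ n, (pd m (fun z => (P.c i) ((P.c j).symm z)) y) n •
      P.A i ((P.c i) ((P.c j).symm y)) n) = CA := rfl
  rw [hA'] at hc
  unfold cov
  rw [Matrix.mulVec_add, ← hc, map_smul]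
  have hB' : (∑ n, (pd m (P.tr i j) y) n • L.B i (P.tr i j y) n) = CB := rfl
  rw [hB', add_smul]
  simp only [smul_add, hw]
  abel

end Pool.Agent.Helper98.DA
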